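import Pool.Agent.H192R2.GP.Defs
import Pool.Agent.H192R2.GP.Stubs

/-!
# (gem, P2+P3)-free graphs: bipartite Ramsey theorem
-/

set_option autoImplicit false

namespace Pool.Agent.H192R2.GP

open Stub (ramsey)

/-- greedy choice of rows and columns -/
theorem bip_greedy {V W : Type} (R : V → W → Prop) (C : Set W) (x : ℕ → V) (k : ℕ) :
    ∀ S : Finset ℕ, (∀ i ∈ S, ∀ j ∈ S, i ≠ j → ∃ c ∈ C, ¬ (R (x i) c ↔ R (x j) c)) →
      2 ^ (k + 1) ≤ S.card → ∃ (r : ℕ → ℕ) (c : ℕ → W), (∀ i, i < k + 1 → r i ∈ S ∧ c i ∈ C) ∧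
        ∀ i j, i < j → j < k + 1 → ¬ (R (x (r j)) (c i) ↔ R (x (r i)) (c i)) := by
  classical
  induction k with
  | zero =>
    intro S hS hc
    have h1 : 1 < S.card := by simp at hc; omega
    obtain ⟨i, hi, j, hj, hij⟩ := Finset.one_lt_card.mp h1
    obtain ⟨c, hc, -⟩ := hS i hi j hj hij
    exact ⟨fun _ => i, fun _ => c, fun _ _ => ⟨hi, hc⟩, fun i j h1 h2 => by omega⟩
  | succ k ih =>
    intro S hS hc
    have h1 : 1 < S.card := by
      have : 2 ^ 1 ≤ 2 ^ (k + 1 + 1) := Nat.pow_le_pow_right (by norm_num) (by omega)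
      omega
    obtain ⟨i, hi, j, hj, hij⟩ := Finset.one_lt_card.mp h1
    obtain ⟨c0, hc0, hcc⟩ := hS i hi j hj hij
    -- the two halves
    have key : ∃ (S' : Finset ℕ) (r0 : ℕ), S' ⊆ S ∧ r0 ∈ S ∧ 2 ^ (k + 1) ≤ S'.card ∧
        ∀ s ∈ S', ¬ (R (x s) c0 ↔ R (x r0) c0) := by
      have hsum := Finset.card_filter_add_card_filter_not (s := S) (fun s => R (x s) c0)
      have hp : 2 ^ (k + 1 + 1) = 2 ^ (k + 1) + 2 ^ (k + 1) := by ring
      have hex : (∃ s ∈ S, R (x s) c0) ∧ (∃ s ∈ S, ¬ R (x s) c0) := by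
        by_cases h : R (x i) c0
        · exact ⟨⟨i, hi, h⟩, ⟨j, hj, fun h' => hcc ⟨fun _ => h', fun _ => h⟩⟩⟩
        · refine ⟨⟨j, hj, ?_⟩, ⟨i, hi, h⟩⟩
          by_contra h'
          exact hcc ⟨fun h2 => absurd h2 h, fun h2 => absurd h2 h'⟩
      obtain ⟨⟨s1, hs1, hr1⟩, ⟨s2, hs2, hr2⟩⟩ := hex
      by_cases hle : 2 ^ (k + 1) ≤ (S.filter fun s => R (x s) c0).card
      · refine ⟨S.filter fun s => R (x s) c0, s2, Finset.filter_subset _ _, hs2, hle, ?_⟩
        intro s hs h
        exact hr2 (h.mp (Finset.mem_filter.mp hs).2)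
      · refine ⟨S.filter fun s => ¬ R (x s) c0, s1, Finset.filter_subset _ _, hs1, by omega, ?_⟩
        intro s hs h
        exact (Finset.mem_filter.mp hs).2 (h.mpr hr1)
    obtain ⟨S', r0, hsub, hr0, hcard, hsep⟩ := key
    obtain ⟨r, c, h1, h2⟩ := ih S' (fun i hi j hj => hS i (hsub hi) j (hsub hj)) hcard
    refine ⟨fun i => if i = 0 then r0 else r (i - 1), fun i => if i = 0 then c0 else c (i - 1),
      ?_, ?_⟩
    · intro i hi
      by_cases h0 : i = 0
      · simp only [h0, if_true]; exact ⟨hr0, hc0⟩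
      · simp only [h0, if_false]
        have := h1 (i - 1) (by omega)
        exact ⟨hsub this.1, this.2⟩
    · intro i j hij hj
      have hj0 : j ≠ 0 := by omega
      by_cases h0 : i = 0
      · simp only [h0, hj0, if_true, if_false]
        exact hsep _ (h1 (j - 1) (by omega)).1
      · simp only [h0, hj0, if_false]
        exact h2 (i - 1) (j - 1) (by omega) (by omega)

theorem bip_ramsey (n : ℕ) : ∃ N : ℕ, ∀ {V W : Type} (R : V → W → Prop) (C : Set W) (x : ℕ → V),
    (∀ i j, i < j → j < N → ∃ c ∈ C, ¬ (R (x i) c ↔ R (x j) c)) →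
    ∃ (σ : ℕ → ℕ) (y : ℕ → W), (∀ i j, i < j → j < n → σ i < σ j) ∧ (∀ i, i < n → σ i < N) ∧
      (∀ i, i < n → y i ∈ C) ∧
      ((∀ i j, i < n → j < n → (R (x (σ i)) (y j) ↔ i = j)) ∨
       (∀ i j, i < n → j < n → (R (x (σ i)) (y j) ↔ i ≠ j)) ∨
       (∀ i j, i < n → j < n → (R (x (σ i)) (y j) ↔ i ≤ j)) ∨
       (∀ i j, i < n → j < n → (R (x (σ i)) (y j) ↔ j ≤ i))) := by
  classical
  obtain ⟨K, hK⟩ := ramsey 8 (n + 2)
  refine ⟨2 ^ (K + 1), ?_⟩
  intro V W R C x hx
  obtain ⟨r, c, h1, h2⟩ := bip_greedy R C x K (Finset.range (2 ^ (K + 1)))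
    (by
      intro i hi j hj hij
      rw [Finset.mem_range] at hi hj
      rcases lt_or_gt_of_ne hij with h | h
      · exact hx i j h hj
      · obtain ⟨c, hc, hc'⟩ := hx j i h hi
        exact ⟨c, hc, fun h => hc' h.symm⟩)
    (by rw [Finset.card_range])
  obtain ⟨τ, t1, t2, κ, t3⟩ := hK (fun i j => (if R (x (r i)) (c i) then 1 else 0) +
    (if R (x (r i)) (c j) then 2 else 0) + (if r i < r j then 4 else 0)) (by
      intro i j _ _
      split_ifs <;> omega)
  -- the properties of the subsequence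
  have p1 : ∀ i j, i < j → j < n + 2 → (R (x (r (τ i))) (c (τ i)) ↔ κ % 2 = 1) ∧
      (R (x (r (τ i))) (c (τ j)) ↔ κ / 2 % 2 = 1) ∧ (r (τ i) < r (τ j) ↔ κ / 4 = 1) := by
    intro i j hij hj
    have := t3 i j hij hj
    rw [← this]
    by_cases e1 : R (x (r (τ i))) (c (τ i)) <;> by_cases e2 : R (x (r (τ i))) (c (τ j)) <;>
      by_cases e3 : r (τ i) < r (τ j) <;> simp [e1, e2, e3]
  have p2 : ∀ i j, i < j → j < n + 2 →
      ¬ (R (x (r (τ j))) (c (τ i)) ↔ R (x (r (τ i))) (c (τ i))) :=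
    fun i j hij hj => h2 _ _ (t1 i j hij hj) (by have := t2 j hj; omega)
  have p3 : ∀ i, i < n + 2 → r (τ i) < 2 ^ (K + 1) ∧ c (τ i) ∈ C := by
    intro i hi
    have := h1 (τ i) (by have := t2 i hi; omega)
    exact ⟨Finset.mem_range.mp this.1, this.2⟩
  -- a pattern with monotone or antitone rows
  have p4 : ∃ ρ : ℕ → ℕ, (∀ i j, i < j → j < n → ρ i < ρ j) ∧ (∀ i, i < n → ρ i < n + 2) ∧
      ((∀ i j, i < n → j < n → (R (x (r (τ (ρ i)))) (c (τ j)) ↔ i = j)) ∨
       (∀ i j, i < n → j < n → (R (x (r (τ (ρ i)))) (c (τ j)) ↔ i ≠ j)) ∨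
       (∀ i j, i < n → j < n → (R (x (r (τ (ρ i)))) (c (τ j)) ↔ i ≤ j)) ∨
       (∀ i j, i < n → j < n → (R (x (r (τ (ρ i)))) (c (τ j)) ↔ j ≤ i))) := by
    have low : ∀ i j, j < i → i < n + 2 → (R (x (r (τ i))) (c (τ j)) ↔ ¬ κ % 2 = 1) := by
      intro i j hij hi
      have e1 := p2 j i hij hi
      have e2 := (p1 j i hij hi).1
      rw [e2] at e1
      tauto
    have dia : ∀ i, i < n + 1 → (R (x (r (τ i))) (c (τ i)) ↔ κ % 2 = 1) :=
      fun i hi => (p1 i (i + 1) (by omega) (by omega)).1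
    have upp : ∀ i j, i < j → j < n + 2 → (R (x (r (τ i))) (c (τ j)) ↔ κ / 2 % 2 = 1) :=
      fun i j hij hj => (p1 i j hij hj).2.1
    by_cases a : κ % 2 = 1
    · refine ⟨fun i => i, fun i j h _ => h, fun i h => (by omega : i < n + 2), ?_⟩
      by_cases b : κ / 2 % 2 = 1
      · right; right; left
        intro i j hi hj
        rcases lt_trichotomy i j with h | h | h
        · rw [upp i j h (by omega)]; simp [b, h.le]
        · subst h; rw [dia i (by omega)]; simp [a]
        · rw [low i j h (by omega)]; simp [a]; omega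
      · left
        intro i j hi hj
        rcases lt_trichotomy i j with h | h | h
        · rw [upp i j h (by omega)]; simp [b]; omega
        · subst h; rw [dia i (by omega)]; simp [a]
        · rw [low i j h (by omega)]; simp [a]; omega
    · by_cases b : κ / 2 % 2 = 1
      · refine ⟨fun i => i, fun i j h _ => h, fun i h => (by omega : i < n + 2), ?_⟩
        right; left
        intro i j hi hj
        rcases lt_trichotomy i j with h | h | h
        · rw [upp i j h (by omega)]; simp [b]; omega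
        · subst h; rw [dia i (by omega)]; simp [a]
        · rw [low i j h (by omega)]; simp [a]; omega
      · refine ⟨fun i => i + 1, fun i j h _ => (by omega : i + 1 < j + 1),
          fun i h => (by omega : i + 1 < n + 2), ?_⟩
        right; right; right
        intro i j hi hj
        rcases lt_trichotomy (i + 1) j with h | h | h
        · rw [upp (i + 1) j h (by omega)]; simp [b]; omega
        · rw [← h, dia (i + 1) (by omega)]; simp [a]
        · rw [low (i + 1) j h (by omega)]; simp [a]; omega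
  obtain ⟨ρ, r1, r2, r3⟩ := p4
  by_cases hd : κ / 4 = 1
  · refine ⟨fun i => r (τ (ρ i)), fun j => c (τ j), ?_, fun i hi => (p3 _ (r2 i hi)).1,
      fun i hi => (p3 i (by omega)).2, r3⟩
    intro i j hij hj
    exact ((p1 (ρ i) (ρ j) (r1 i j hij hj) (r2 j hj)).2.2).mpr hd
  · refine ⟨fun i => r (τ (ρ (n - 1 - i))), fun j => c (τ (n - 1 - j)), ?_,
      fun i hi => (p3 _ (r2 _ (by omega))).1, fun i hi => (p3 _ (by omega)).2, ?_⟩
    · intro i j hij hj
      have e := r1 (n - 1 - j) (n - 1 - i) (by omega) (by omega)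
      have e2 := (p1 _ _ e (r2 _ (by omega))).2.2
      have e3 := p2 _ _ e (r2 _ (by omega))
      have e4 : r (τ (ρ (n - 1 - j))) ≠ r (τ (ρ (n - 1 - i))) := by
        intro h; rw [h] at e3; exact e3 Iff.rfl
      have e5 : ¬ r (τ (ρ (n - 1 - j))) < r (τ (ρ (n - 1 - i))) := fun h => hd (e2.mp h)
      simp only
      omega
    · rcases r3 with h | h | h | h
      · left
        intro i j hi hj
        simp only
        rw [h _ _ (by omega) (by omega)]; omega
      · right; left
        intro i j hi hj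
        simp only
        rw [h _ _ (by omega) (by omega)]; omega
      · right; right; right
        intro i j hi hj
        simp only
        rw [h _ _ (by omega) (by omega)]; omega
      · right; right; left
        intro i j hi hj
        simp only
        rw [h _ _ (by omega) (by omega)]; omega

end Pool.Agent.H192R2.GP
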